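import Pool.Agent.Lib.MP_7c5fb9_nt.TOR.KL.G
import Pool.Agent.Lib.MP_7c5fb9_nt.TOR.Hecke
import Pool.Agent.Lib.MP_7c5fb9_nt.TOR.Fin
import Pool.Agent.Lib.MP_7c5fb9_nt.TOR.Red
import Pool.Agent.Lib.MP_7c5fb9_nt.TOR.Hur
import Pool.Agent.Lib.MP_7c5fb9_nt.TOR.Toric
import Pool.Agent.Lib.MP_7c5fb9_nt.TOR.Emb
import Pool.Agent.Lib.MP_7c5fb9_nt.TOR.Tern
import Pool.Agent.Lib.MP_7c5fb9_nt.TOR.Three
import Pool.Agent.Lib.MP_7c5fb9_nt.TOR.DH
import Pool.Agent.Lib.MP_7c5fb9_nt.TOR.Crit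

set_option autoImplicit false

/-!
# Toric periods on the Hamilton quaternions: positive proportion of non-vanishing for all weights
-/

namespace Pool.Agent.Results.MP_7c5fb9_nt.HamiltonAllWeights

open Pool.Agent.Lib.MP_7c5fb9_nt.TOR

/-- Let `Φ` be a form of even degree `ℓ` for the Hamilton quaternions and the Hurwitz order (level
a power of `3`), an eigenfunction of `T_5` and `T_7` on `S = {x : |x|^2 = 1 mod 3}`, not zero
on `S`. Then for each of the seven behaviours of `Q(√-n)` at `2` the toric periods of `Φ` over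
`Q(√-n)` do not vanish for a positive proportion of `n`, and for at least half of the
`n = 1 mod 3`: namely for all `n = 1 mod 3` such that the class number of `Q(√-n)` is prime
to `3`. -/
theorem result (ℓ m : ℕ) (Φ : (Fin 3 → ℤ) → ℂ) (hΦ : Form ℓ m Φ) (hℓ : Even ℓ) (h5 : Eig 5 Φ)
    (h7 : Eig 7 Φ) (h0 : ∃ x, nrm x % 3 = 1 ∧ Φ x ≠ 0) :
    ∀ r ∈ ({1, 2, 3, 5, 6, 10, 14} : Finset ℕ),
      (∀ n : ℕ, Cls r n → n % 3 = 1 →
        ∀ (K : Type) [Field K] [NumberField K] (s : K), Module.finrank ℚ K = 2 →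
          s ^ 2 = -(n : K) → ¬ 3 ∣ Nat.card (ClassGroup (NumberField.RingOfIntegers K)) →
            NonVanK Φ K s) ∧
      (∃ c : ℝ, 0 < c ∧ ∃ X₀ : ℕ, ∀ X : ℕ, X₀ ≤ X →
        c * X ≤ ({n : ℕ | n ≤ X ∧ Cls r n ∧ n % 3 = 1 ∧ NonVan Φ n}.ncard : ℝ)) ∧
      ∀ ε : ℝ, 0 < ε → ∃ X₀ : ℕ, ∀ X : ℕ, X₀ ≤ X →
        (1 / 2 - ε) * ({n : ℕ | n ≤ X ∧ Cls r n ∧ n % 3 = 1}.ncard : ℝ) ≤
          ({n : ℕ | n ≤ X ∧ Cls r n ∧ n % 3 = 1 ∧ NonVan Φ n}.ncard : ℝ) := by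
  have hcrit : StCrit :=
    stCrit (stRed stKL stHecke stFin) (stToric stHur) stEmb (stThree stTern)
  intro r hr
  refine ⟨?_, stMain hcrit stDH ℓ m Φ hΦ hℓ h5 h7 h0 r hr⟩
  intro n hn hn3 K _ _ s hK hs hcl
  refine hcrit ℓ m Φ hΦ hℓ h5 h7 h0 n hn.1 ?_ hn3 K s hK hs hcl
  have h9 := hn.2
  simp only [Finset.mem_insert, Finset.mem_singleton] at hr
  rcases hr with rfl | rfl | rfl | rfl | rfl | rfl | rfl <;> norm_num at h9 <;> omega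

end Pool.Agent.Results.MP_7c5fb9_nt.HamiltonAllWeights
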