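import Pool.Agent.Lib.MP_7c5fb9_nt.LO.AllB
import Pool.Agent.Lib.MP_7c5fb9_nt.LO.FieldB
import Pool.Agent.Lib.MP_7c5fb9_nt.LO.SqOdd
import Pool.Agent.Lib.MP_7c5fb9_nt.LO.SqTwo
import Pool.Agent.Lib.MP_7c5fb9_nt.LO.Alg

set_option autoImplicit false

/-!
# Toric periods of every level one eigenform: positive proportion of non-vanishing, with arbitrary
# local conditions at finitely many primes different from three
-/

namespace Pool.Agent.Results.MP_7c5fb9_nt.LevelOne

open Pool.Agent.Lib.MP_7c5fb9_nt.LO Pool.Agent.Lib.MP_7c08ba_nt.RZ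
open scoped MatrixGroups

/-- `D` is the discriminant of a (real) quadratic field. -/
def RealDisc (D : ℕ) : Prop :=
  ∃ (K : Type) (_ : Field K) (_ : NumberField K), Module.finrank ℚ K = 2 ∧
    NumberField.discr K = (D : ℤ)

/-- The toric periods of `f` over the quadratic field of discriminant `D` do not vanish. -/
def NonVanAt {w : ℕ} (k : ℕ) (f : CuspForm 𝒮ℒ (w : ℤ)) (D : ℕ) : Prop :=
  ∀ (K : Type) [Field K] [NumberField K], Module.finrank ℚ K = 2 →
    NumberField.discr K = (D : ℤ) → NonVan k f K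

theorem realDisc_iff (D : ℕ) : RealDisc D ↔ FD (D : ℤ) := by
  constructor
  · rintro ⟨K, _, _, hK, hd⟩
    rw [← hd]
    exact (stDiscrB.1 K hK).1
  · intro h
    exact exists_field h

/-- Let `f` be any normalised Hecke eigenform of level one and weight `2 * k`, `k` even.

First, the toric periods of `f` do not vanish over any real quadratic field of discriminant
`D = 2` modulo `3` such that the class number of `ℚ(√(-3D))` is prime to `3`.

Second, let `P` be any finite set of primes different from `3` and let `d p` be non-zero integers: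
among the real quadratic fields of discriminant `D = 2` modulo `3` whose completions at the primes
`p` of `P` are `ℚ_p(√(d p))`, ordered by discriminant, the toric periods of `f` do not vanish for
a positive proportion of all real quadratic fields, namely for asymptotically at least half. -/
theorem result (k w : ℕ) (f : CuspForm 𝒮ℒ (w : ℤ)) (hk : Even k) (hw : w = 2 * k)
    (hf : IsEigen f) :
    (∀ D : ℕ, D % 3 = 2 →
      (∀ (F : Type) [Field F] [NumberField F] (s : F), Module.finrank ℚ F = 2 →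
        s ^ 2 = -((3 * D : ℕ) : F) →
          ¬ 3 ∣ Nat.card (ClassGroup (NumberField.RingOfIntegers F))) →
      NonVanAt k f D) ∧
    ∀ (P : Finset ℕ) (d : ℕ → ℤ), (∀ p ∈ P, p.Prime ∧ p ≠ 3 ∧ d p ≠ 0) →
      (∃ c : ℝ, 0 < c ∧ ∃ X₀ : ℕ, ∀ X : ℕ, X₀ ≤ X →
        c * X ≤ ({D : ℕ | D ≤ X ∧ RealDisc D ∧ D % 3 = 2 ∧ LocAt P d D ∧
          NonVanAt k f D}.ncard : ℝ)) ∧
      ∀ ε : ℝ, 0 < ε → ∃ X₀ : ℕ, ∀ X : ℕ, X₀ ≤ X →
        (1 / 2 - ε) * ({D : ℕ | D ≤ X ∧ RealDisc D ∧ D % 3 = 2 ∧ LocAt P d D}.ncard : ℝ) ≤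
          ({D : ℕ | D ≤ X ∧ RealDisc D ∧ D % 3 = 2 ∧ LocAt P d D ∧
            NonVanAt k f D}.ncard : ℝ) := by
  obtain ⟨h1, h2⟩ := bMain k w f hk hw hf
  refine ⟨fun D hD hF K _ _ hK hd => h1 K D hK hd hD hF, fun P d hP => ?_⟩
  simp only [realDisc_iff]
  exact stAlg stSqOdd stSqTwo (NonVanAt k f) h2 P d hP

end Pool.Agent.Results.MP_7c5fb9_nt.LevelOne
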