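import Pool.Agent.Lib.MP_7c5fb9_nt.LC.Main

set_option autoImplicit false

/-!
# Central values of the `L`-functions of every level one eigenform of weight divisible by four
-/

namespace Pool.Agent.Results.MP_7c5fb9_nt.LevelOneCentralValues

open Pool.Agent.Lib.MP_7c5fb9_nt.LO Pool.Agent.Lib.MP_7c5fb9_nt.LC
open Pool.Agent.Lib.MP_7c08ba_nt.RZ
open scoped MatrixGroups

/-- Let `f` be any normalised Hecke eigenform of level one and weight `2 * k`, `k` even.

First, `L(f, s)` does not vanish at its centre `k`.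

Second, for squarefree `D = 5` modulo `12` the twist `L(f, χ_D, s)` does not vanish at `k` if the
class number of `ℚ(√(-3D))` is prime to `3`, or if the class number of `ℚ(√D)` is prime to `3` and
the unit `(t + u √D) / 2` satisfies `9 ∤ t u (t ^ 2 + D u ^ 2)`.

Third, the twist does not vanish at `k` for at least `(3 / (8 π ^ 2) - ε) X` of the squarefree
`D ≤ X`, `D = 5` modulo `12`.

Fourth, for `ρ = 5, 17` and residues `r` modulo `p ^ 2` at finitely many primes `p ≥ 5`, the twist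
does not vanish at `k` for a positive proportion of the `D`, and for at least half of the
squarefree `D` with `D = ρ` modulo `24` and `D = r` modulo all `p ^ 2`. -/
theorem result (k w : ℕ) (f : CuspForm 𝒮ℒ (w : ℤ)) (hk : Even k) (hw : w = 2 * k)
    (hf : IsEigen f) :
    CentralNe k f 1 ∧
    (∀ D : ℕ, Squarefree D → D % 12 = 5 →
      ((∀ (F : Type) [Field F] [NumberField F] (s : F), Module.finrank ℚ F = 2 →
          s ^ 2 = -((3 * D : ℕ) : F) →
            ¬ 3 ∣ Nat.card (ClassGroup (NumberField.RingOfIntegers F))) ∨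
        ((∀ (K : Type) [Field K] [NumberField K] (s : K), Module.finrank ℚ K = 2 →
            s ^ 2 = (D : K) → ¬ 3 ∣ Nat.card (ClassGroup (NumberField.RingOfIntegers K))) ∧
          ∀ t u : ℤ, Fund D t u → ¬ (9 : ℤ) ∣ t * u * (t ^ 2 + D * u ^ 2))) →
      CentralNe k f D) ∧
    (∀ ε : ℝ, 0 < ε → ∃ X₀ : ℕ, ∀ X : ℕ, X₀ ≤ X →
      (3 / (8 * Real.pi ^ 2) - ε) * X ≤
        ({D : ℕ | D ≤ X ∧ Squarefree D ∧ D % 12 = 5 ∧ CentralNe k f D}.ncard : ℝ)) ∧
    ∀ ρ : ℕ, (ρ = 5 ∨ ρ = 17) → ∀ P : Finset ℕ, (∀ p ∈ P, p.Prime ∧ 5 ≤ p) →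
      ∀ r : ℕ, (∀ p ∈ P, ¬ p ^ 2 ∣ r) →
        (∃ c : ℝ, 0 < c ∧ ∃ X₀ : ℕ, ∀ X : ℕ, X₀ ≤ X →
          c * X ≤ ({D : ℕ | D ≤ X ∧ Squarefree D ∧ D % 24 = ρ ∧
            (∀ p ∈ P, D % p ^ 2 = r % p ^ 2) ∧ CentralNe k f D}.ncard : ℝ)) ∧
        ∀ ε : ℝ, 0 < ε → ∃ X₀ : ℕ, ∀ X : ℕ, X₀ ≤ X →
          (1 / 2 - ε) * ({D : ℕ | D ≤ X ∧ Squarefree D ∧ D % 24 = ρ ∧
            (∀ p ∈ P, D % p ^ 2 = r % p ^ 2)}.ncard : ℝ) ≤
          ({D : ℕ | D ≤ X ∧ Squarefree D ∧ D % 24 = ρ ∧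
            (∀ p ∈ P, D % p ^ 2 = r % p ^ 2) ∧ CentralNe k f D}.ncard : ℝ) := by
  have key : ∀ D : ℕ, Squarefree D → D % 12 = 5 →
      (∀ (K : Type) [Field K] [NumberField K] (s : K), Module.finrank ℚ K = 2 →
        s ^ 2 = (D : K) → NonVan k f K) → CentralNe k f D ∧ CentralNe k f 1 := by
    intro D hD h12 hN
    refine of_nonvan k w f hk hw hf hD (by omega) (by omega) ?_
    intro K _ _ hK hd
    obtain ⟨-, s, hs⟩ := stDiscrB.1 K hK
    refine hN K s hK ?_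
    rw [hs, hd]
    simp
  have hcount := (aMain k w f hk hw hf).2
  have hfin : ∀ (X : ℕ) (S : Set ℕ), (∀ D ∈ S, D ≤ X) → S.Finite := fun X S hS =>
    (Set.finite_Iic X).subset fun D hD => hS D hD
  refine ⟨?_, ?_, ?_, ?_⟩
  · -- one field
    have hpos : (0 : ℝ) < 3 / (8 * Real.pi ^ 2) := by positivity
    obtain ⟨X₀, hX₀⟩ := hcount (3 / (8 * Real.pi ^ 2) / 2) (by positivity)
    have h1 := hX₀ (X₀ + 1) (by omega)
    have h2 : (0 : ℝ) < ({D : ℕ | D ≤ X₀ + 1 ∧ Squarefree D ∧ D % 12 = 5 ∧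
        ∀ (K : Type) [Field K] [NumberField K] (s : K), Module.finrank ℚ K = 2 →
          s ^ 2 = (D : K) → NonVan k f K}.ncard : ℝ) := by
      refine lt_of_lt_of_le ?_ h1
      have h3 : (0 : ℝ) < ((X₀ + 1 : ℕ) : ℝ) := by positivity
      have h4 : 0 < 3 / (8 * Real.pi ^ 2) - 3 / (8 * Real.pi ^ 2) / 2 := by linarith
      positivity
    have h5 : 0 < {D : ℕ | D ≤ X₀ + 1 ∧ Squarefree D ∧ D % 12 = 5 ∧
        ∀ (K : Type) [Field K] [NumberField K] (s : K), Module.finrank ℚ K = 2 →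
          s ^ 2 = (D : K) → NonVan k f K}.ncard := by exact_mod_cast h2
    obtain ⟨D, -, hD, h12, hN⟩ := Set.nonempty_of_ncard_ne_zero h5.ne'
    exact (key D hD h12 hN).2
  · intro D hD h12 h
    rcases h with h | ⟨h, hu⟩
    · exact (crit1 k w f hk hw hf hD (by omega) (by omega) h).1
    · exact (crit2 k w f hk hw hf hD (by omega) (by omega) h hu).1
  · intro ε hε
    obtain ⟨X₀, hX₀⟩ := hcount ε hε
    refine ⟨X₀, fun X hX => (hX₀ X hX).trans ?_⟩
    have h1 := Set.ncard_le_ncard (s := {D : ℕ | D ≤ X ∧ Squarefree D ∧ D % 12 = 5 ∧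
        ∀ (K : Type) [Field K] [NumberField K] (s : K), Module.finrank ℚ K = 2 →
          s ^ 2 = (D : K) → NonVan k f K})
      (t := {D : ℕ | D ≤ X ∧ Squarefree D ∧ D % 12 = 5 ∧ CentralNe k f D})
      (fun D hD => ⟨hD.1, hD.2.1, hD.2.2.1, (key D hD.2.1 hD.2.2.1 hD.2.2.2).1⟩)
      (hfin X _ fun D hD => hD.1)
    exact_mod_cast h1
  · intro ρ hρ P hP r hr
    have hM : RealTwo 8 (ρ % 8) := by
      left
      refine ⟨rfl, ?_⟩
      rcases hρ with rfl | rfl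
      · right; rfl
      · left; rfl
    have hB := (bMain k w f hk hw hf).2 8 (ρ % 8) hM P hP r hr
    -- the product of the squares
    have hprod : ∀ D : ℕ, D % (∏ p ∈ P, p ^ 2) = r % (∏ p ∈ P, p ^ 2) ↔
        ∀ p ∈ P, D % p ^ 2 = r % p ^ 2 := by
      intro D
      constructor
      · intro h p hp
        have h2 : p ^ 2 ∣ ∏ p ∈ P, p ^ 2 := Finset.dvd_prod_of_mem (fun p => p ^ 2) hp
        exact Nat.ModEq.of_dvd h2 h
      · intro h
        refine Nat.modEq_iff_dvd.2 ?_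
        rw [Nat.cast_prod]
        apply Finset.prod_dvd_of_coprime
        · intro p hp q hq hpq
          show IsCoprime ((p ^ 2 : ℕ) : ℤ) ((q ^ 2 : ℕ) : ℤ)
          rw [Nat.isCoprime_iff_coprime]
          apply Nat.Coprime.pow
          rw [Nat.coprime_primes (hP p hp).1 (hP q hq).1]
          exact hpq
        · intro p hp
          exact Nat.modEq_iff_dvd.1 (h p hp)
    -- the sets agree
    have hset : ∀ D : ℕ, (FD D ∧ D % 3 = 2 ∧ D % 8 = ρ % 8) ↔ (Squarefree D ∧ D % 24 = ρ) := by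
      intro D
      constructor
      · rintro ⟨h1, h2, h3⟩
        have h4 : D % 4 = 1 := by
          rcases hρ with rfl | rfl <;> omega
        refine ⟨(of_fd h1 h4).1, ?_⟩
        rcases hρ with rfl | rfl <;> omega
      · rintro ⟨h1, h2⟩
        have h4 : D % 4 = 1 := by
          rcases hρ with rfl | rfl <;> omega
        have h5 : D ≠ 1 := by
          rcases hρ with rfl | rfl <;> omega
        refine ⟨fd_of h1 h4 h5, ?_, ?_⟩
        · rcases hρ with rfl | rfl <;> omega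
        · rcases hρ with rfl | rfl <;> omega
    have hle : ∀ X : ℕ, ({D : ℕ | D ≤ X ∧ FD D ∧ D % 3 = 2 ∧ D % 8 = ρ % 8 ∧
        D % (∏ p ∈ P, p ^ 2) = r % (∏ p ∈ P, p ^ 2) ∧
        ∀ (K : Type) [Field K] [NumberField K], Module.finrank ℚ K = 2 →
          NumberField.discr K = D → NonVan k f K}.ncard : ℝ) ≤
        ({D : ℕ | D ≤ X ∧ Squarefree D ∧ D % 24 = ρ ∧
            (∀ p ∈ P, D % p ^ 2 = r % p ^ 2) ∧ CentralNe k f D}.ncard : ℝ) := by
      intro X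
      have h1 := Set.ncard_le_ncard (s := {D : ℕ | D ≤ X ∧ FD D ∧ D % 3 = 2 ∧ D % 8 = ρ % 8 ∧
          D % (∏ p ∈ P, p ^ 2) = r % (∏ p ∈ P, p ^ 2) ∧
          ∀ (K : Type) [Field K] [NumberField K], Module.finrank ℚ K = 2 →
            NumberField.discr K = D → NonVan k f K})
        (t := {D : ℕ | D ≤ X ∧ Squarefree D ∧ D % 24 = ρ ∧
            (∀ p ∈ P, D % p ^ 2 = r % p ^ 2) ∧ CentralNe k f D})
        (fun D hD => by
          obtain ⟨a1, a2, a3, a4, a5, a6⟩ := hD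
          obtain ⟨b1, b2⟩ := (hset D).1 ⟨a2, a3, a4⟩
          refine ⟨a1, b1, b2, (hprod D).1 a5, ?_⟩
          refine (of_nonvan k w f hk hw hf b1 ?_ ?_ a6).1
          · rcases hρ with rfl | rfl <;> omega
          · rcases hρ with rfl | rfl <;> omega)
        (hfin X _ fun D hD => hD.1)
      exact_mod_cast h1
    refine ⟨?_, fun ε hε => ?_⟩
    · obtain ⟨c, hc, X₀, hX₀⟩ := hB.1
      exact ⟨c, hc, X₀, fun X hX => (hX₀ X hX).trans (hle X)⟩
    · obtain ⟨X₀, hX₀⟩ := hB.2 ε hε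
      refine ⟨X₀, fun X hX => ?_⟩
      have h2 := hX₀ X hX
      have h3 : {D : ℕ | D ≤ X ∧ FD D ∧ D % 3 = 2 ∧ D % 8 = ρ % 8 ∧
          D % (∏ p ∈ P, p ^ 2) = r % (∏ p ∈ P, p ^ 2)} =
          {D : ℕ | D ≤ X ∧ Squarefree D ∧ D % 24 = ρ ∧ (∀ p ∈ P, D % p ^ 2 = r % p ^ 2)} := by
        ext D
        constructor
        · rintro ⟨a1, a2, a3, a4, a5⟩
          obtain ⟨b1, b2⟩ := (hset D).1 ⟨a2, a3, a4⟩
          exact ⟨a1, b1, b2, (hprod D).1 a5⟩
        · rintro ⟨a1, b1, b2, a5⟩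
          obtain ⟨a2, a3, a4⟩ := (hset D).2 ⟨b1, b2⟩
          exact ⟨a1, a2, a3, a4, (hprod D).2 a5⟩
      rw [h3] at h2
      exact h2.trans (hle X)

end Pool.Agent.Results.MP_7c5fb9_nt.LevelOneCentralValues
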