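import Pool.Agent.Lib.MP_7c5fb9_nt.LT.All

set_option autoImplicit false

/-!
# Toric periods of every newform of level two and root number one: positive proportion of
# non-vanishing, with arbitrary local conditions at finitely many primes different from three
-/

namespace Pool.Agent.Results.MP_7c5fb9_nt.LevelTwo

open Pool.Agent.Lib.MP_7c5fb9_nt.LO Pool.Agent.Lib.MP_7c5fb9_nt.LT
  Pool.Agent.Lib.MP_7c08ba_nt.RZ

/-- Let `f` be any normalised newform of level two and weight `2 * k`, `k` even, with root number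
one.

First, the toric periods of `f` do not vanish over any real quadratic field of discriminant
`D = 2` modulo `3` in which `2` is not inert and such that the class number of `ℚ(√(-3D))` is prime
to `3`.

Second, let `P` be any finite set of primes different from `3` which contains `2` and let `d p` be
non-zero integers such that `5 * d 2` is not a square in `ℚ_2`: among the real quadratic fields of
discriminant `D = 2` modulo `3` whose completions at the primes `p` of `P` are `ℚ_p(√(d p))`,
ordered by discriminant, the toric periods of `f` do not vanish for a positive proportion of all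
real quadratic fields, namely for asymptotically at least half. -/
theorem result (k : ℕ) (f : Cusp2 (2 * k)) (hk : Even k) (hk3 : 3 ≤ k) (hf : IsNew k f) :
    (∀ D : ℕ, D % 3 = 2 → D % 8 ≠ 5 →
      (∀ (F : Type) [Field F] [NumberField F] (s : F), Module.finrank ℚ F = 2 →
        s ^ 2 = -((3 * D : ℕ) : F) →
          ¬ 3 ∣ Nat.card (ClassGroup (NumberField.RingOfIntegers F))) →
      NonVanAt k f D) ∧
    ∀ (P : Finset ℕ) (d : ℕ → ℤ), 2 ∈ P → (∀ p ∈ P, p.Prime ∧ p ≠ 3 ∧ d p ≠ 0) →
      (∀ [Fact (Nat.Prime 2)], ¬ IsSquare (((5 * d 2 : ℤ) : ℤ) : ℚ_[2])) →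
      (∃ c : ℝ, 0 < c ∧ ∃ X₀ : ℕ, ∀ X : ℕ, X₀ ≤ X →
        c * X ≤ ({D : ℕ | D ≤ X ∧ RealDisc D ∧ D % 3 = 2 ∧ LocAt P d D ∧
          NonVanAt k f D}.ncard : ℝ)) ∧
      ∀ ε : ℝ, 0 < ε → ∃ X₀ : ℕ, ∀ X : ℕ, X₀ ≤ X →
        (1 / 2 - ε) * ({D : ℕ | D ≤ X ∧ RealDisc D ∧ D % 3 = 2 ∧ LocAt P d D}.ncard : ℝ) ≤
          ({D : ℕ | D ≤ X ∧ RealDisc D ∧ D % 3 = 2 ∧ LocAt P d D ∧
            NonVanAt k f D}.ncard : ℝ) :=
  fields2 bMain2 (stCountB stLocP) stSqOdd stSqTwo k f hk hk3 hf

end Pool.Agent.Results.MP_7c5fb9_nt.LevelTwo
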